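import Mathlib
import Pool.Agent.Helper7.CYC.Iff
import Pool.Agent.Helper41.CYC.C7
import Pool.Agent.Helper57.CYC.Arith
import Pool.Agent.Helper23.CYC.Core

set_option autoImplicit false

namespace Pool.Agent.Results.MP_9508c8_co.CyclicTables

/-- Snevily's conjecture for cyclic groups of even order, in full and with its converse (and for
every positive `n`): for subsets `A`, `B` of `Z/nZ` of equal size there is no bijection `f` from
`A` to `B` with the sums `a + f a` all distinct if and only if `A` and `B` are cosets of one
subgroup of even order. -/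
theorem result (n : ℕ) (hn : 0 < n) (A B : Finset (ZMod n)) (hc : A.card = B.card) :
    (¬ ∃ f : ZMod n → ZMod n,
        Set.BijOn f (A : Set (ZMod n)) (B : Set (ZMod n)) ∧
        Set.InjOn (fun a => a + f a) (A : Set (ZMod n))) ↔
    ∃ H : AddSubgroup (ZMod n), Even (Nat.card H) ∧
      ∃ a b : ZMod n,
        (∀ x : ZMod n, x ∈ A ↔ x - a ∈ H) ∧
        (∀ x : ZMod n, x ∈ B ↔ x - b ∈ H) :=
  Pool.Agent.Helper7.CYC.iff_of_main
    (Pool.Agent.Helper41.CYC.main_of_arith_core Pool.Agent.Helper57.CYC.st_arith
      Pool.Agent.Helper23.CYC.st_core) n hn A B hc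

end Pool.Agent.Results.MP_9508c8_co.CyclicTables
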